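import Mathlib
import Pool.Agent.Q11.NEss

set_option autoImplicit false

namespace Pool.Agent.Results.MP_0af3ab_al.LeftNotRight

universe u

/-- The associative center (nucleus) `N(R)` of a unital, not necessarily associative ring. -/
def nucleus (R : Type u) [NonAssocRing R] : Set R :=
  {x | ∀ a b : R, (x * a) * b - x * (a * b) = 0 ∧ (a * x) * b - a * (x * b) = 0 ∧
    (a * b) * x - a * (b * x) = 0}

/-- `N(R) r ∩ N(R) ≠ 0` for every nonzero `r`. -/
def LeftNEssential (R : Type u) [NonAssocRing R] : Prop :=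
  ∀ r : R, r ≠ 0 → ∃ x ∈ nucleus R, x * r ∈ nucleus R ∧ x * r ≠ 0

/-- `r N(R) ∩ N(R) ≠ 0` for every nonzero `r`. -/
def RightNEssential (R : Type u) [NonAssocRing R] : Prop :=
  ∀ r : R, r ≠ 0 → ∃ x ∈ nucleus R, r * x ∈ nucleus R ∧ r * x ≠ 0

/-- Over every field `F` there is a unital (not associative) `F`-algebra of dimension `4` that is
left `N`-essential but not right `N`-essential. -/
theorem result (F : Type u) [Field F] :
    ∃ (R : Type u) (_ : NonAssocRing R) (_ : Module F R),
      IsScalarTower F R R ∧ SMulCommClass F R R ∧ Module.finrank F R = 4 ∧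
      LeftNEssential R ∧ ¬ RightNEssential R := by
  have hn : ∀ x : Q11.NEss.R4 F, x ∈ nucleus (Q11.NEss.R4 F) ↔ x 1 = 0 := by
    intro x
    rw [← Q11.NEss.nuc_iff]
    simp only [nucleus, Set.mem_ofPred_eq, sub_eq_zero]
  refine ⟨Q11.NEss.R4 F, inferInstance, inferInstance, inferInstance, inferInstance,
    Q11.NEss.finrank4, ?_, ?_⟩
  · intro r hr
    by_cases h : r 1 = 0
    · refine ⟨1, ?_, ?_, ?_⟩
      · rw [hn]; simp
      · rw [hn]; simp [h]
      · rw [one_mul]; exact hr
    · refine ⟨Q11.NEss.vec 0 0 1 0, ?_, ?_, ?_⟩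
      · rw [hn]; simp
      · rw [hn]; simp
      · intro h2
        have h3 := congrFun h2 3
        simp at h3
        exact h h3
  · intro H
    obtain ⟨x, hx, h1, h2⟩ := H (Q11.NEss.vec 0 1 0 0)
      (by intro h; have h3 := congrFun h 1; simp at h3)
    rw [hn] at hx h1
    simp at h1
    apply h2
    apply Q11.NEss.ext4 <;> simp [hx, h1]

end Pool.Agent.Results.MP_0af3ab_al.LeftNotRight
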